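import Pool.Agent.H180.PG.Stm

/-!
# Functionals with prescribed signs from indicator functionals of a tree
-/

open Set

namespace Pool.Agent.Q29.PG

open Pool.Agent.H180.PG

theorem co_add {Γ : Type} (f g : StrongDual ℝ (L1 Γ)) (u : Γ) : co (f + g) u = co f u + co g u := rfl

theorem co_sub {Γ : Type} (f g : StrongDual ℝ (L1 Γ)) (u : Γ) : co (f - g) u = co f u - co g u := rfl

theorem co_smul {Γ : Type} (c : ℝ) (f : StrongDual ℝ (L1 Γ)) (u : Γ) : co (c • f) u = c * co f u := rfl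

theorem co_sum {Γ ι : Type} (F : Finset ι) (g : ι → StrongDual ℝ (L1 Γ)) (u : Γ) :
    co (∑ i ∈ F, g i) u = ∑ i ∈ F, co (g i) u := by
  simp [co]

/-- In a tree, the block of a node of a finite set has its indicator functional in `Y`. -/
theorem block (h : S_L1) (Γ : Type) [SemilatticeInf Γ]
    (ht : ∀ a b c : Γ, a ≤ c → b ≤ c → a ≤ b ∨ b ≤ a)
    (Y : Submodule ℝ (StrongDual ℝ (L1 Γ)))
    (hY : ∀ (t : Γ) (f : StrongDual ℝ (L1 Γ)), IsChi t f → f ∈ Y) (F : Finset Γ) (γ : Γ) :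
    ∃ g ∈ Y, (∀ u, u ≤ γ → (∀ γ' ∈ F, ¬ γ ≤ γ' → ¬ u ≤ γ') → co g u = 1) ∧
      ∀ u, ¬ (u ≤ γ ∧ ∀ γ' ∈ F, ¬ γ ≤ γ' → ¬ u ≤ γ') → co g u = 0 := by
  classical
  have chi : ∀ t : Γ, ∃ f : StrongDual ℝ (L1 Γ), IsChi t f := by
    intro t
    obtain ⟨f, -, hf⟩ := (h Γ).2.2.1 (fun u => if u ≤ t then 1 else 0) 1 zero_le_one (by
      intro u
      by_cases hu : u ≤ t <;> simp [hu])
    refine ⟨f, fun u hu => ?_, fun u hu => ?_⟩
    · rw [hf u, if_pos hu]
    · rw [hf u, if_neg hu]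
  obtain ⟨fγ, hfγ⟩ := chi γ
  by_cases hM : (F.filter fun γ' => ¬ γ ≤ γ').Nonempty
  · -- the greatest meet
    obtain ⟨γ₀, hγ₀, hmax⟩ : ∃ γ₀ ∈ F.filter fun γ' => ¬ γ ≤ γ',
        ∀ γ' ∈ F.filter fun γ' => ¬ γ ≤ γ', γ ⊓ γ' ≤ γ ⊓ γ₀ := by
      have key : ∀ M : Finset Γ, M.Nonempty → ∃ γ₀ ∈ M, ∀ γ' ∈ M, γ ⊓ γ' ≤ γ ⊓ γ₀ := by
        intro M
        induction M using Finset.induction_on with
        | empty => intro hne; exact absurd rfl hne.ne_empty
        | insert a M ha ih =>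
          intro _
          by_cases hMe : M.Nonempty
          · obtain ⟨γ₀, h0, h1⟩ := ih hMe
            rcases ht (γ ⊓ a) (γ ⊓ γ₀) γ inf_le_left inf_le_left with h2 | h2
            · refine ⟨γ₀, Finset.mem_insert_of_mem h0, fun γ' hγ' => ?_⟩
              rcases Finset.mem_insert.mp hγ' with rfl | h3
              · exact h2
              · exact h1 γ' h3
            · refine ⟨a, Finset.mem_insert_self a M, fun γ' hγ' => ?_⟩
              rcases Finset.mem_insert.mp hγ' with rfl | h3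
              · exact le_rfl
              · exact (h1 γ' h3).trans h2
          · rw [Finset.not_nonempty_iff_eq_empty] at hMe
            subst hMe
            refine ⟨a, Finset.mem_insert_self a ∅, fun γ' hγ' => ?_⟩
            rcases Finset.mem_insert.mp hγ' with rfl | h3
            · exact le_rfl
            · exact absurd h3 (Finset.notMem_empty _)
      exact key _ hM
    obtain ⟨f0, hf0⟩ := chi (γ ⊓ γ₀)
    have hγ₀F := (Finset.mem_filter.mp hγ₀).1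
    have hγ₀n := (Finset.mem_filter.mp hγ₀).2
    refine ⟨fγ - f0, Y.sub_mem (hY γ fγ hfγ) (hY _ f0 hf0), fun u hu hu2 => ?_, fun u hu => ?_⟩
    · rw [co_sub, hfγ.1 u hu, hf0.2 u, sub_zero]
      intro hle
      exact hu2 γ₀ hγ₀F hγ₀n (hle.trans inf_le_right)
    · rw [co_sub]
      by_cases huγ : u ≤ γ
      · have : ∃ γ' ∈ F, ¬ γ ≤ γ' ∧ u ≤ γ' := by
          by_contra hcon
          push Not at hcon
          exact hu ⟨huγ, fun γ' h1 h2 => hcon γ' h1 h2⟩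
        obtain ⟨γ', h1, h2, h3⟩ := this
        have h4 : u ≤ γ ⊓ γ₀ :=
          (le_inf huγ h3).trans (hmax γ' (Finset.mem_filter.mpr ⟨h1, h2⟩))
        rw [hfγ.1 u huγ, hf0.1 u h4, sub_self]
      · rw [hfγ.2 u huγ, hf0.2 u (fun hle => huγ (hle.trans inf_le_left)), sub_zero]
  · rw [Finset.not_nonempty_iff_eq_empty] at hM
    refine ⟨fγ, hY γ fγ hfγ, fun u hu _ => hfγ.1 u hu, fun u hu => hfγ.2 u (fun huγ => hu ⟨huγ, ?_⟩)⟩
    intro γ' h1 h2
    have : γ' ∈ F.filter fun γ' => ¬ γ ≤ γ' := Finset.mem_filter.mpr ⟨h1, h2⟩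
    rw [hM] at this
    exact absurd this (Finset.notMem_empty _)

theorem signs : S_Signs := by
  classical
  intro h Γ _ ht Y hY F σ hσ
  choose g hgY hg1 hg0 using fun γ => block h Γ ht Y hY F γ
  have hdisj : ∀ γ ∈ F, ∀ γ' ∈ F, γ ≠ γ' → ∀ u, co (g γ) u ≠ 0 → co (g γ') u = 0 := by
    intro γ hγ γ' hγ' hne u hu
    have h1 : u ≤ γ ∧ ∀ γ'' ∈ F, ¬ γ ≤ γ'' → ¬ u ≤ γ'' := by
      by_contra hcon
      exact hu (hg0 γ u hcon)
    apply hg0 γ' u
    rintro ⟨h2, h3⟩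
    by_cases hle : γ ≤ γ'
    · have hn : ¬ γ' ≤ γ := fun h4 => hne (le_antisymm hle h4)
      exact h3 γ hγ hn h1.1
    · exact h1.2 γ' hγ' hle h2
  have hval : ∀ γ u, co (g γ) u = 0 ∨ co (g γ) u = 1 := by
    intro γ u
    by_cases hu : u ≤ γ ∧ ∀ γ'' ∈ F, ¬ γ ≤ γ'' → ¬ u ≤ γ''
    · exact Or.inr (hg1 γ u hu.1 hu.2)
    · exact Or.inl (hg0 γ u hu)
  set f : StrongDual ℝ (L1 Γ) := ∑ γ ∈ F, σ γ • g γ with hf
  have hco : ∀ u, co f u = ∑ γ ∈ F, σ γ * co (g γ) u := by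
    intro u
    rw [hf, co_sum]
    rfl
  have hbd : ∀ u, |co f u| ≤ 1 := by
    intro u
    by_cases hex : ∃ γ ∈ F, co (g γ) u ≠ 0
    · obtain ⟨γ, hγ, hne⟩ := hex
      have : co f u = σ γ := by
        rw [hco u, Finset.sum_eq_single_of_mem γ hγ (fun γ' hγ' hn => by
          rw [hdisj γ hγ γ' hγ' hn.symm u hne, mul_zero])]
        rcases hval γ u with h0 | h1
        · exact absurd h0 hne
        · rw [h1, mul_one]
      rw [this]
      exact hσ γ
    · push Not at hex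
      have : co f u = 0 := by
        rw [hco u]
        exact Finset.sum_eq_zero (fun γ hγ => by rw [hex γ hγ, mul_zero])
      rw [this]
      simp
  obtain ⟨f', hf'n, hf'c⟩ := (h Γ).2.2.1 (fun u => co f u) 1 zero_le_one hbd
  have hff' : f = f' := by
    have h1 : ∀ x : L1 Γ, (f - f') x = 0 := by
      intro x
      apply (h Γ).1
      intro γ _
      rw [co_sub, hf'c γ, sub_self]
    ext x
    have := h1 x
    rw [_root_.sub_apply, sub_eq_zero] at this
    exact this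
  refine ⟨f, Y.sum_mem (fun γ _ => Y.smul_mem _ (hgY γ)), ?_, ?_⟩
  · rw [hff']; exact hf'n
  · intro γ hγ
    have h1 : co (g γ) γ = 1 := hg1 γ γ le_rfl (fun γ' _ hn => hn)
    rw [hco γ, Finset.sum_eq_single_of_mem γ hγ (fun γ' hγ' hn => by
      rw [hdisj γ hγ γ' hγ' hn.symm γ (by rw [h1]; exact one_ne_zero), mul_zero])]
    rw [h1, mul_one]

end Pool.Agent.Q29.PG
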